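import Pool.Agent.Lib.MP_b9d600_co.Cover

namespace Pool.Agent.Results.MP_b9d600_co.FaceCover

open Pool.Agent.Lib.MP_b9d600_co

/-- Every subgraph of a connected subcubic plane graph whose vertices are covered by disjoint
facial cycles of length at least four is outer-apRAC. -/
theorem result {V : Type} [Fintype V] (G : SimpleGraph V) [DecidableRel G.Adj]
    (hdeg : ∀ v, G.degree v ≤ 3) (M : PlaneMap G) (F : Set G.Dart) (hF : M.IsFaceCover F)
    {U : Type} (H : SimpleGraph U) (f : H →g G) (hf : Function.Injective f) :
    ∃ p : U → ℝ × ℝ, IsOuterApRAC H p :=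
  cover_draw hdeg M hF H f hf

end Pool.Agent.Results.MP_b9d600_co.FaceCover
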